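import Mathlib
import Pool.Agent.H807R2.Dav1

/-! A finite Parseval bound for convolutions. -/

set_option autoImplicit false

namespace Pool.Agent.X25.DE
open Finset
open Pool.Agent.H807R2.Dav

lemma sum_ee (P : ℕ) (hP : 0 < P) (h : ℤ) :
    ∑ k ∈ range P, ee ((k : ℝ) * h / P) = if (P : ℤ) ∣ h then (P : ℂ) else 0 := by
  have hP0 : (P : ℝ) ≠ 0 := by positivity
  have h1 : ∀ k : ℕ, ee ((k : ℝ) * h / P) = ee ((h : ℝ) / P) ^ k := by
    intro k
    rw [← ee_pow]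
    congr 1
    ring
  rw [sum_congr rfl fun k _ => h1 k]
  split_ifs with hd
  · obtain ⟨c, rfl⟩ := hd
    have : (((P : ℤ) * c : ℤ) : ℝ) / P = ((c : ℤ) : ℝ) := by
      push_cast
      field_simp
    rw [this, ee_int]
    simp
  · have hne : ee ((h : ℝ) / P) ≠ 1 := by
      intro h2
      unfold ee at h2
      rw [Complex.exp_eq_one_iff] at h2
      obtain ⟨n, hn⟩ := h2
      apply hd
      refine ⟨n, ?_⟩
      have hpi : (2 * (Real.pi : ℂ) * Complex.I) ≠ 0 := by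
        simp [Real.pi_ne_zero]
      have h3 : (((h : ℝ) / P : ℝ) : ℂ) = (n : ℂ) := by
        apply mul_left_cancel₀ hpi
        rw [hn]; ring
      have h4 : (h : ℝ) / P = (n : ℝ) := by exact_mod_cast h3
      have h5 : (h : ℝ) = P * n := by
        rw [div_eq_iff hP0] at h4
        linarith
      exact_mod_cast h5
    have h6 := geom_sum_eq hne P
    rw [h6]
    have h7 : ee ((h : ℝ) / P) ^ P = 1 := by
      rw [← ee_pow, mul_div_cancel₀ _ hP0, ee_int]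
    rw [h7]
    simp

lemma conj_ee (x : ℝ) : (starRingEnd ℂ) (ee x) = ee (-x) := by
  rw [ee_eq, ee_eq, ← Complex.exp_conj]
  congr 1
  rw [map_mul, Complex.conj_ofReal, Complex.conj_I]
  push_cast
  ring

lemma parseval (P : ℕ) (hP : 0 < P) (c : ℕ → ℂ) :
    ∑ k ∈ range P, ‖∑ n ∈ range P, c n * ee ((n : ℝ) * ((k : ℝ) / P))‖ ^ 2 =
      P * ∑ n ∈ range P, ‖c n‖ ^ 2 := by
  have key : (∑ k ∈ range P, ((‖∑ n ∈ range P, c n * ee ((n : ℝ) * ((k : ℝ) / P))‖ : ℝ) : ℂ) ^ 2) =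
      P * ∑ n ∈ range P, ((‖c n‖ : ℝ) : ℂ) ^ 2 := by
    have h1 : ∀ k : ℕ, ((‖∑ n ∈ range P, c n * ee ((n : ℝ) * ((k : ℝ) / P))‖ : ℝ) : ℂ) ^ 2 =
        ∑ n ∈ range P, ∑ m ∈ range P, (c n * (starRingEnd ℂ) (c m)) *
          ee ((k : ℝ) * (((n : ℤ) - (m : ℤ) : ℤ) : ℝ) / P) := by
      intro k
      rw [← Complex.mul_conj', map_sum, sum_mul_sum]
      refine sum_congr rfl fun n _ => sum_congr rfl fun m _ => ?_
      rw [map_mul, conj_ee]
      have : ee ((k : ℝ) * (((n : ℤ) - (m : ℤ) : ℤ) : ℝ) / P) =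
          ee ((n : ℝ) * ((k : ℝ) / P)) * ee (-((m : ℝ) * ((k : ℝ) / P))) := by
        rw [← ee_add]
        congr 1
        push_cast
        ring
      rw [this]
      ring
    rw [sum_congr rfl fun k _ => h1 k, sum_comm, mul_sum]
    refine sum_congr rfl fun n hn => ?_
    rw [sum_comm]
    have h2 : ∀ m ∈ range P, ∑ k ∈ range P, (c n * (starRingEnd ℂ) (c m)) *
          ee ((k : ℝ) * (((n : ℤ) - (m : ℤ) : ℤ) : ℝ) / P) =
        if m = n then (P : ℂ) * (c n * (starRingEnd ℂ) (c n)) else 0 := by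
      intro m hm
      rw [← mul_sum, sum_ee P hP]
      rw [mem_range] at hn hm
      by_cases hmn : m = n
      · subst hmn
        simp
        ring
      · rw [if_neg, if_neg hmn, mul_zero]
        intro hd
        obtain ⟨c, hc⟩ := hd
        have hc0 : c = 0 := by
          rcases lt_trichotomy c 0 with h | h | h
          · nlinarith
          · exact h
          · nlinarith
        rw [hc0] at hc
        omega
    rw [sum_congr rfl h2, sum_ite_eq' (range P) n, if_pos hn, Complex.mul_conj']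
  exact_mod_cast key

/-- the coefficients of the product of two polynomials -/
lemma conv_bound (X : ℕ) (a b : ℕ → ℝ) (F : ℝ) (_hF0 : 0 ≤ F)
    (hF : ∀ α : ℝ, ‖∑ m ∈ Icc 1 X, ((a m : ℝ) : ℂ) * ee ((m : ℝ) * α)‖ ≤ F) :
    ∑ N ∈ Icc 1 X, (∑ m ∈ Icc 1 (N - 1), a m * b (N - m)) ^ 2 ≤ F ^ 2 * ∑ n ∈ Icc 1 X, b n ^ 2 := by
  set P : ℕ := 2 * X + 1 with hP
  have hP0 : 0 < P := by omega
  set c : ℕ → ℝ := fun N => ∑ p ∈ ((Icc 1 X) ×ˢ (Icc 1 X)).filter (fun p => p.1 + p.2 = N), a p.1 * b p.2 with hc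
  have hcN : ∀ N ∈ Icc 1 X, ∑ m ∈ Icc 1 (N - 1), a m * b (N - m) = c N := by
    intro N hN
    rw [mem_Icc] at hN
    rw [hc]
    refine sum_nbij' (fun m => (m, N - m)) (fun p => p.1) ?_ ?_ ?_ ?_ ?_
    · intro m hm
      rw [mem_Icc] at hm
      simp only [mem_filter, mem_product, mem_Icc]
      omega
    · intro p hp
      simp only [mem_filter, mem_product, mem_Icc] at hp
      rw [mem_Icc]
      omega
    · intro m _; rfl
    · intro p hp
      simp only [mem_filter, mem_product, mem_Icc] at hp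
      ext
      · rfl
      · simp only; omega
    · intro m _; rfl
  have hprod : ∀ α : ℝ, (∑ m ∈ Icc 1 X, ((a m : ℝ) : ℂ) * ee ((m : ℝ) * α)) *
      (∑ n ∈ Icc 1 X, ((b n : ℝ) : ℂ) * ee ((n : ℝ) * α)) =
      ∑ N ∈ range P, ((c N : ℝ) : ℂ) * ee ((N : ℝ) * α) := by
    intro α
    rw [sum_mul_sum, ← sum_product']
    rw [← sum_fiberwise_of_maps_to (t := range P) (g := fun p : ℕ × ℕ => p.1 + p.2)]
    · refine sum_congr rfl fun N _ => ?_
      rw [hc]
      push_cast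
      rw [sum_mul]
      refine sum_congr rfl fun p hp => ?_
      rw [mem_filter] at hp
      rw [← hp.2]
      have : ee (((p.1 + p.2 : ℕ) : ℝ) * α) = ee ((p.1 : ℝ) * α) * ee ((p.2 : ℝ) * α) := by
        rw [← ee_add]; congr 1; push_cast; ring
      rw [this]
      ring
    · intro p hp
      simp only [mem_product, mem_Icc] at hp
      rw [mem_range]
      omega
  have hB : ∑ k ∈ range P, ‖∑ n ∈ Icc 1 X, ((b n : ℝ) : ℂ) * ee ((n : ℝ) * ((k : ℝ) / P))‖ ^ 2 =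
      P * ∑ n ∈ Icc 1 X, b n ^ 2 := by
    have h := parseval P hP0 (fun n => if n ∈ Icc 1 X then ((b n : ℝ) : ℂ) else 0)
    have hsub : Icc 1 X ⊆ range P := by
      intro n hn
      rw [mem_Icc] at hn
      rw [mem_range]
      omega
    have e1 : ∀ k : ℕ, ∑ n ∈ range P, (if n ∈ Icc 1 X then ((b n : ℝ) : ℂ) else 0) * ee ((n : ℝ) * ((k : ℝ) / P)) =
        ∑ n ∈ Icc 1 X, ((b n : ℝ) : ℂ) * ee ((n : ℝ) * ((k : ℝ) / P)) := by
      intro k
      symm
      rw [← sum_subset hsub]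
      · refine sum_congr rfl fun n hn => ?_
        rw [if_pos hn]
      · intro n _ hn
        rw [if_neg hn, zero_mul]
    have e2 : ∑ n ∈ range P, ‖(if n ∈ Icc 1 X then ((b n : ℝ) : ℂ) else 0)‖ ^ 2 = ∑ n ∈ Icc 1 X, b n ^ 2 := by
      symm
      rw [← sum_subset hsub]
      · refine sum_congr rfl fun n hn => ?_
        rw [if_pos hn, Complex.norm_real, Real.norm_eq_abs, sq_abs]
      · intro n _ hn
        rw [if_neg hn]; simp
    rw [e2] at h
    rw [← h]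
    refine sum_congr rfl fun k _ => ?_
    rw [e1]
  have hC := parseval P hP0 (fun N => ((c N : ℝ) : ℂ))
  have hle : (P : ℝ) * ∑ N ∈ range P, c N ^ 2 ≤ F ^ 2 * (P * ∑ n ∈ Icc 1 X, b n ^ 2) := by
    have e3 : ∑ N ∈ range P, c N ^ 2 = ∑ N ∈ range P, ‖((c N : ℝ) : ℂ)‖ ^ 2 := by
      refine sum_congr rfl fun N _ => ?_
      rw [Complex.norm_real, Real.norm_eq_abs, sq_abs]
    rw [e3, ← hC, ← hB, mul_sum]
    refine sum_le_sum fun k _ => ?_
    rw [← hprod, norm_mul, mul_pow]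
    exact mul_le_mul_of_nonneg_right (pow_le_pow_left₀ (norm_nonneg _) (hF _) 2) (by positivity)
  have hPr : (0 : ℝ) < P := by exact_mod_cast hP0
  have hle2 : ∑ N ∈ range P, c N ^ 2 ≤ F ^ 2 * ∑ n ∈ Icc 1 X, b n ^ 2 := by
    have : (P : ℝ) * ∑ N ∈ range P, c N ^ 2 ≤ P * (F ^ 2 * ∑ n ∈ Icc 1 X, b n ^ 2) := by
      linarith [hle]
    exact le_of_mul_le_mul_left this hPr
  refine le_trans ?_ hle2
  rw [sum_congr rfl fun N hN => by rw [hcN N hN]]
  apply sum_le_sum_of_subset_of_nonneg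
  · intro n hn
    rw [mem_Icc] at hn
    rw [mem_range]
    omega
  · intro n _ _
    positivity

/-- the `L^1` form -/
lemma conv_bound1 (X : ℕ) (a b : ℕ → ℝ) (F G : ℝ) (hF0 : 0 ≤ F) (hG0 : 0 ≤ G)
    (hF : ∀ α : ℝ, ‖∑ m ∈ Icc 1 X, ((a m : ℝ) : ℂ) * ee ((m : ℝ) * α)‖ ≤ F)
    (hG : ∀ n ∈ Icc 1 X, |b n| ≤ G) :
    ∑ N ∈ Icc 1 X, |∑ m ∈ Icc 1 (N - 1), a m * b (N - m)| ≤ X * (F * G) := by
  have h := conv_bound X a b F hF0 hF
  have h1 : ∑ n ∈ Icc 1 X, b n ^ 2 ≤ X * G ^ 2 := by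
    calc ∑ n ∈ Icc 1 X, b n ^ 2 ≤ ∑ _n ∈ Icc 1 X, G ^ 2 := by
          refine sum_le_sum fun n hn => ?_
          rw [← sq_abs]
          exact pow_le_pow_left₀ (abs_nonneg _) (hG n hn) 2
      _ = _ := by rw [sum_const, Nat.card_Icc, nsmul_eq_mul]; push_cast; simp
  have h3 : (∑ N ∈ Icc 1 X, |∑ m ∈ Icc 1 (N - 1), a m * b (N - m)|) ^ 2 ≤
      X * ∑ N ∈ Icc 1 X, (∑ m ∈ Icc 1 (N - 1), a m * b (N - m)) ^ 2 := by
    have := sq_sum_le_card_mul_sum_sq (s := Icc 1 X) (f := fun N => |∑ m ∈ Icc 1 (N - 1), a m * b (N - m)|)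
    rw [Nat.card_Icc] at this
    simp only [sq_abs, Nat.add_sub_cancel] at this
    exact this
  have hX0 : (0 : ℝ) ≤ X := Nat.cast_nonneg _
  have h4 : (∑ N ∈ Icc 1 X, |∑ m ∈ Icc 1 (N - 1), a m * b (N - m)|) ^ 2 ≤ (X * (F * G)) ^ 2 := by
    calc _ ≤ (X : ℝ) * (F ^ 2 * (X * G ^ 2)) := by
          refine h3.trans (mul_le_mul_of_nonneg_left ?_ hX0)
          refine h.trans (mul_le_mul_of_nonneg_left h1 (by positivity))
      _ = _ := by ring
  exact abs_le_of_sq_le_sq' h4 (by positivity) |>.2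

end Pool.Agent.X25.DE
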