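import Mathlib
import Pool.Agent.H373R2.T7.SupMu

/-! Exponential sums of the Moebius function with a coprimality condition. -/

set_option autoImplicit false

namespace Pool.Agent.X25.DE
open Finset
open Pool.Agent.H807R2.Dav
open Pool.Agent.H373R2.T7 (muR muR_abs sup_mu)

lemma sum_dk {E : Type} [AddCommMonoid E] (x : ℕ) (h : ℕ → ℕ → E) :
    ∑ m ∈ Icc 1 x, ∑ d ∈ m.divisors, h d (m / d) = ∑ d ∈ Icc 1 x, ∑ k ∈ Icc 1 (x / d), h d k := by
  rw [sum_sigma', sum_sigma']
  refine sum_nbij' (fun p => ⟨p.2, p.1 / p.2⟩) (fun p => ⟨p.1 * p.2, p.1⟩) ?_ ?_ ?_ ?_ ?_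
  · rintro ⟨m, d⟩ hp
    simp only [mem_sigma, mem_Icc, Nat.mem_divisors] at hp ⊢
    obtain ⟨⟨h1, h2⟩, h3, h4⟩ := hp
    have hd : 0 < d := Nat.pos_of_dvd_of_pos h3 (by omega)
    refine ⟨⟨hd, (Nat.le_of_dvd (by omega) h3).trans h2⟩, Nat.div_pos (Nat.le_of_dvd (by omega) h3) hd,
      Nat.div_le_div_right h2⟩
  · rintro ⟨d, k⟩ hp
    simp only [mem_sigma, mem_Icc, Nat.mem_divisors] at hp ⊢
    obtain ⟨⟨h1, h2⟩, h3, h4⟩ := hp
    have h5 : d * k ≤ x := by
      rw [Nat.le_div_iff_mul_le (by omega)] at h4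
      rwa [mul_comm]
    have h6 : 0 < d * k := Nat.mul_pos (by omega) (by omega)
    exact ⟨⟨h6, h5⟩, Dvd.intro _ rfl, by omega⟩
  · rintro ⟨m, d⟩ hp
    simp only [mem_sigma, mem_Icc, Nat.mem_divisors] at hp ⊢
    obtain ⟨⟨h1, h2⟩, h3, h4⟩ := hp
    rw [Nat.mul_div_cancel' h3]
  · rintro ⟨d, k⟩ hp
    simp only [mem_sigma, mem_Icc] at hp
    obtain ⟨⟨h1, h2⟩, h3, h4⟩ := hp
    simp only
    rw [Nat.mul_div_cancel_left _ (by omega)]
  · rintro ⟨m, d⟩ _
    rfl

lemma cop_part (m q : ℕ) (hm : 0 < m) : (m / Nat.gcd m (q ^ m)).Coprime q := by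
  set g := Nat.gcd m (q ^ m) with hg
  have hg0 : 0 < g := Nat.gcd_pos_of_pos_left _ hm
  have hgm : g ∣ m := Nat.gcd_dvd_left _ _
  rw [Nat.coprime_iff_gcd_eq_one]
  by_contra hne
  obtain ⟨p, hp, hpd⟩ := Nat.exists_prime_and_dvd hne
  have hp1 : p ∣ m / g := hpd.trans (Nat.gcd_dvd_left _ _)
  have hp2 : p ∣ q := hpd.trans (Nat.gcd_dvd_right _ _)
  set v := m.factorization p with hv
  have h1 : p ^ v ∣ m := Nat.ordProj_dvd m p
  have h2 : v ≤ m := (Nat.factorization_lt p hm.ne').le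
  have h3 : p ^ v ∣ q ^ m := (pow_dvd_pow p h2).trans (pow_dvd_pow_of_dvd hp2 m)
  have h4 : p ^ v ∣ g := Nat.dvd_gcd h1 h3
  have h5 : p ^ (v + 1) ∣ m := by
    rw [pow_succ]
    calc p ^ v * p ∣ g * (m / g) := mul_dvd_mul h4 hp1
      _ = m := Nat.mul_div_cancel' hgm
  exact Nat.pow_succ_factorization_not_dvd hm.ne' hp h5

lemma cop_point (m q : ℕ) (hm : 0 < m) (hq : 0 < q) :
    ∑ d ∈ m.divisors, (if d.primeFactors ⊆ q.primeFactors then muR (m / d) else 0) =
      if m.Coprime q then muR m else 0 := by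
  set g := Nat.gcd m (q ^ m) with hg
  have hg0 : 0 < g := Nat.gcd_pos_of_pos_left _ hm
  have hgm : g ∣ m := Nat.gcd_dvd_left _ _
  set k := m / g with hk
  have hkq : k.Coprime q := cop_part m q hm
  have hmk : m = g * k := (Nat.mul_div_cancel' hgm).symm
  have hk0 : 0 < k := Nat.div_pos (Nat.le_of_dvd hm hgm) hg0
  have hkg : k.Coprime g := by
    have : k.Coprime (q ^ m) := Nat.Coprime.pow_right _ hkq
    exact this.coprime_dvd_right (Nat.gcd_dvd_right _ _)
  rw [← sum_filter]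
  have hset : m.divisors.filter (fun d => d.primeFactors ⊆ q.primeFactors) = g.divisors := by
    ext d
    simp only [mem_filter, Nat.mem_divisors]
    constructor
    · rintro ⟨⟨h1, _⟩, h2⟩
      refine ⟨?_, hg0.ne'⟩
      have hcop : d.Coprime k := by
        rw [Nat.coprime_iff_gcd_eq_one]
        by_contra hne
        obtain ⟨p, hp, hpd⟩ := Nat.exists_prime_and_dvd hne
        have hp1 : p ∣ d := hpd.trans (Nat.gcd_dvd_left _ _)
        have hp2 : p ∣ k := hpd.trans (Nat.gcd_dvd_right _ _)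
        have hd0 : d ≠ 0 := by
          rintro rfl
          rw [zero_dvd_iff] at h1
          omega
        have hp3 : p ∈ q.primeFactors := h2 (Nat.mem_primeFactors.2 ⟨hp, hp1, hd0⟩)
        have hp4 : p ∣ q := Nat.dvd_of_mem_primeFactors hp3
        have : p ∣ Nat.gcd k q := Nat.dvd_gcd hp2 hp4
        rw [hkq] at this
        exact hp.one_lt.ne' (Nat.dvd_one.1 this)
      rw [hmk] at h1
      exact hcop.dvd_of_dvd_mul_right h1
    · rintro ⟨h1, _⟩
      refine ⟨⟨h1.trans hgm, hm.ne'⟩, ?_⟩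
      have h2 : d ∣ q ^ m := h1.trans (Nat.gcd_dvd_right _ _)
      refine (Nat.primeFactors_mono h2 (by positivity)).trans ?_
      rw [Nat.primeFactors_pow q hm.ne']
  rw [hset]
  have hterm : ∀ d ∈ g.divisors, muR (m / d) = muR (g / d) * muR k := by
    intro d hd
    rw [Nat.mem_divisors] at hd
    have h1 : m / d = (g / d) * k := by
      rw [hmk, Nat.mul_comm g k, Nat.mul_div_assoc _ hd.1, mul_comm]
    rw [h1]
    unfold muR
    have hc : (g / d).Coprime k := (hkg.symm).coprime_dvd_left (Nat.div_dvd_of_dvd hd.1)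
    rw [ArithmeticFunction.isMultiplicative_moebius.map_mul_of_coprime hc]
    push_cast
    ring
  rw [sum_congr rfl hterm, ← sum_mul]
  have hsum : ∑ d ∈ g.divisors, muR (g / d) = if g = 1 then 1 else 0 := by
    rw [Nat.sum_div_divisors g muR]
    unfold muR
    rw [← Int.cast_sum]
    have h2 := congrArg (fun f : ArithmeticFunction ℤ => f g) ArithmeticFunction.moebius_mul_coe_zeta
    simp only [ArithmeticFunction.coe_mul_zeta_apply] at h2
    rw [h2, ArithmeticFunction.one_apply]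
    split_ifs <;> simp
  rw [hsum]
  by_cases hg1 : g = 1
  · rw [if_pos hg1]
    have hm1 : m = k := by rw [hmk, hg1, one_mul]
    rw [if_pos (by rw [hm1]; exact hkq), one_mul, ← hm1]
  · rw [if_neg hg1, zero_mul]
    rw [if_neg]
    intro hc
    apply hg1
    have : Nat.Coprime m (q ^ m) := Nat.Coprime.pow_right _ hc
    exact this

/-- the coprime Moebius sum in terms of full Moebius sums -/
lemma cop_identity (q : ℕ) (hq : 0 < q) (x : ℕ) (f : ℕ → ℂ) :
    ∑ m ∈ (Icc 1 x).filter (fun m => m.Coprime q), ((muR m : ℝ) : ℂ) * f m =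
      ∑ d ∈ (Icc 1 x).filter (fun d => d.primeFactors ⊆ q.primeFactors),
        ∑ k ∈ Icc 1 (x / d), ((muR k : ℝ) : ℂ) * f (d * k) := by
  have h := sum_dk x (fun d k => if d.primeFactors ⊆ q.primeFactors then ((muR k : ℝ) : ℂ) * f (d * k) else 0)
  rw [sum_filter, sum_filter]
  have h2 : ∀ d ∈ Icc 1 x, ∑ k ∈ Icc 1 (x / d), (if d.primeFactors ⊆ q.primeFactors then ((muR k : ℝ) : ℂ) * f (d * k) else 0) =
      if d.primeFactors ⊆ q.primeFactors then ∑ k ∈ Icc 1 (x / d), ((muR k : ℝ) : ℂ) * f (d * k) else 0 := by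
    intro d _
    split_ifs
    · rfl
    · simp
  rw [sum_congr rfl h2] at h
  rw [← h]
  refine sum_congr rfl fun m hm => ?_
  rw [mem_Icc] at hm
  have h3 := cop_point m q (by omega) hq
  have h4 : ∀ d ∈ m.divisors, (if d.primeFactors ⊆ q.primeFactors then ((muR (m / d) : ℝ) : ℂ) * f (d * (m / d)) else 0) =
      ((if d.primeFactors ⊆ q.primeFactors then muR (m / d) else 0 : ℝ) : ℂ) * f m := by
    intro d hd
    rw [Nat.mem_divisors] at hd
    rw [Nat.mul_div_cancel' hd.1]
    split_ifs <;> simp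
  rw [sum_congr rfl h4, ← sum_mul, ← Complex.ofReal_sum, h3]
  split_ifs <;> simp

/-- `n ↦ 1/√n` as a monoid homomorphism -/
noncomputable def sqh : ℕ →* ℝ where
  toFun n := (√(n : ℝ))⁻¹
  map_one' := by simp
  map_mul' a b := by
    rw [Nat.cast_mul, Real.sqrt_mul (Nat.cast_nonneg _), mul_inv]

lemma sqh_apply (n : ℕ) : sqh n = (√(n : ℝ))⁻¹ := rfl

lemma euler_le (q x : ℕ) (hq : 0 < q) :
    ∑ d ∈ (Icc 1 x).filter (fun d => d.primeFactors ⊆ q.primeFactors), (√(d : ℝ))⁻¹ ≤ (q.divisors.card : ℝ) ^ 2 := by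
  have hlt : ∀ {p : ℕ}, p.Prime → ‖sqh p‖ < 1 := by
    intro p hp
    rw [sqh_apply, norm_inv, Real.norm_of_nonneg (Real.sqrt_nonneg _)]
    apply inv_lt_one_of_one_lt₀
    rw [Real.lt_sqrt (by norm_num)]
    have : (1 : ℝ) < p := by exact_mod_cast hp.one_lt
    nlinarith
  obtain ⟨_, h2⟩ := EulerProduct.summable_and_hasSum_factoredNumbers_prod_filter_prime_geometric
    (f := sqh) hlt q.primeFactors
  have h3 : HasSum (Set.indicator (Nat.factoredNumbers q.primeFactors) (fun n => sqh n))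
      (∏ p ∈ q.primeFactors with p.Prime, (1 - sqh p)⁻¹) := by
    rw [← hasSum_subtype_iff_indicator]
    exact h2
  have h4 : ∑ d ∈ (Icc 1 x).filter (fun d => d.primeFactors ⊆ q.primeFactors), (√(d : ℝ))⁻¹ ≤
      ∏ p ∈ q.primeFactors with p.Prime, (1 - sqh p)⁻¹ := by
    calc ∑ d ∈ (Icc 1 x).filter (fun d => d.primeFactors ⊆ q.primeFactors), (√(d : ℝ))⁻¹
        = ∑ d ∈ (Icc 1 x).filter (fun d => d.primeFactors ⊆ q.primeFactors),
          Set.indicator (Nat.factoredNumbers q.primeFactors) (fun n => sqh n) d := by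
          refine sum_congr rfl fun d hd => ?_
          rw [mem_filter, mem_Icc] at hd
          rw [Set.indicator_of_mem, sqh_apply]
          refine ⟨by omega, fun p hp => ?_⟩
          apply hd.2
          rw [Nat.mem_primeFactors]
          have hd0 : d ≠ 0 := by omega
          exact ⟨Nat.prime_of_mem_primeFactorsList hp, Nat.dvd_of_mem_primeFactorsList hp, hd0⟩
      _ ≤ _ := by
          refine sum_le_hasSum _ (fun d _ => ?_) h3
          apply Set.indicator_nonneg
          intro n _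
          rw [sqh_apply]
          positivity
  refine h4.trans ?_
  have h5 : ∏ p ∈ q.primeFactors with p.Prime, (1 - sqh p)⁻¹ ≤ ∏ p ∈ q.primeFactors with p.Prime, (4 : ℝ) := by
    apply prod_le_prod
    · intro p hp
      rw [mem_filter] at hp
      have := hlt hp.2
      rw [Real.norm_eq_abs, abs_lt] at this
      exact inv_nonneg.2 (by linarith [this.2])
    · intro p hp
      rw [mem_filter] at hp
      rw [sqh_apply]
      have hp2 : (2 : ℝ) ≤ p := by exact_mod_cast hp.2.two_le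
      have h6 : (4 / 3 : ℝ) ≤ √(p : ℝ) := by
        apply Real.le_sqrt_of_sq_le
        linarith
      have h7 : (√(p : ℝ))⁻¹ ≤ 3 / 4 := by
        rw [inv_le_comm₀ (by positivity) (by norm_num)]
        norm_num
        linarith
      rw [inv_le_comm₀ (by linarith) (by norm_num)]
      linarith
  refine h5.trans ?_
  rw [prod_const]
  have h8 : (q.primeFactors.filter Nat.Prime) = q.primeFactors := by
    apply filter_true_of_mem
    intro p hp
    exact Nat.prime_of_mem_primeFactors hp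
  rw [h8]
  have h9 : 2 ^ q.primeFactors.card ≤ q.divisors.card := by
    rw [Nat.card_divisors hq.ne']
    rw [← prod_const]
    apply Finset.prod_le_prod' 
    intro p hp
    have h10 := (Nat.prime_of_mem_primeFactors hp).factorization_pos_of_dvd hq.ne' (Nat.dvd_of_mem_primeFactors hp)
    omega
  have h11 : ((2 : ℝ) ^ q.primeFactors.card) ≤ (q.divisors.card : ℝ) := by exact_mod_cast h9
  calc (4 : ℝ) ^ q.primeFactors.card = ((2 : ℝ) ^ q.primeFactors.card) ^ 2 := by
        rw [← pow_mul, mul_comm, pow_mul]; norm_num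
    _ ≤ _ := pow_le_pow_left₀ (by positivity) h11 2

end Pool.Agent.X25.DE
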