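import Mathlib
import Pool.Agent.X25.DE.Cop

/-! Uniform bounds for exponential sums over multiples of `q` weighted by the Moebius function. -/

set_option autoImplicit false

namespace Pool.Agent.X25.DE
open Finset
open Pool.Agent.H807R2.Dav
open Pool.Agent.H373R2.T7 (muR muR_abs sup_mu)

lemma ev_nat {p : ℝ → Prop} (h : ∀ᶠ x in Filter.atTop, p x) : ∃ n0 : ℕ, ∀ x : ℝ, n0 ≤ x → p x := by
  rw [Filter.eventually_atTop] at h
  obtain ⟨a, ha⟩ := h
  exact ⟨⌈a⌉₊, fun x hx => ha x ((Nat.le_ceil a).trans hx)⟩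

lemma ev_log_ge (c : ℝ) : ∀ᶠ x : ℝ in Filter.atTop, c ≤ Real.log x :=
  Real.tendsto_log_atTop.eventually_ge_atTop c

lemma ev_pow_le (U : ℕ) (δ : ℝ) (hδ : 0 < δ) (c : ℝ) : ∀ᶠ x : ℝ in Filter.atTop, c * Real.log x ^ U ≤ x ^ δ := by
  have h1 := (isLittleO_log_rpow_rpow_atTop (r := (U : ℝ)) (s := δ) hδ).def (c := 1 / (|c| + 1)) (by positivity)
  filter_upwards [h1, ev_log_ge 1, Filter.eventually_ge_atTop 1] with x h2 h3 h4
  rw [Real.rpow_natCast, Real.norm_of_nonneg (by positivity), Real.norm_of_nonneg (by positivity)] at h2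
  have h5 : (|c| + 1) * Real.log x ^ U ≤ x ^ δ := by
    rw [div_mul_eq_mul_div, one_mul, le_div_iff₀ (by positivity)] at h2
    linarith
  refine le_trans ?_ h5
  apply mul_le_mul_of_nonneg_right _ (by positivity)
  linarith [le_abs_self c]

/-- Davenport's estimate, uniformly over initial segments -/
lemma dav (U : ℕ) : ∃ Y0 : ℕ, ∀ Y : ℝ, Y0 ≤ Y → ∀ y : ℕ, (y : ℝ) ≤ Y → ∀ α : ℝ,
    ‖∑ n ∈ Icc 1 y, ((muR n : ℝ) : ℂ) * ee ((n : ℝ) * α)‖ ≤ Y / Real.log Y ^ U := by
  obtain ⟨N0, h0⟩ := sup_mu (U + 1)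
  obtain ⟨m1, e1⟩ := ev_nat ((ev_pow_le U (1 / 2) (by norm_num) 1).and
    ((ev_pow_le U 1 (by norm_num) N0).and ((ev_log_ge (2 ^ (U + 1))).and (Filter.eventually_ge_atTop 1))))
  refine ⟨m1, fun Y hY y hy α => ?_⟩
  obtain ⟨a1, a2, a3, a4⟩ := e1 Y hY
  rw [Real.rpow_one] at a2
  rw [one_mul, ← Real.sqrt_eq_rpow] at a1
  have hY0 : 0 < Y := by linarith
  have hp1 : (1 : ℝ) ≤ 2 ^ (U + 1) := one_le_pow₀ (by norm_num)
  have hL0 : 0 < Real.log Y := by linarith
  have htriv : ‖∑ n ∈ Icc 1 y, ((muR n : ℝ) : ℂ) * ee ((n : ℝ) * α)‖ ≤ y := by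
    refine (norm_sum_le _ _).trans ?_
    calc ∑ n ∈ Icc 1 y, ‖((muR n : ℝ) : ℂ) * ee ((n : ℝ) * α)‖ ≤ ∑ _n ∈ Icc 1 y, (1 : ℝ) := by
          refine sum_le_sum fun n _ => ?_
          rw [norm_mul, norm_ee, mul_one, Complex.norm_real]
          exact muR_abs n
      _ = y := by simp
  rcases le_or_gt (y : ℝ) (√Y) with h | h
  · refine (htriv.trans h).trans ?_
    rw [le_div_iff₀ (by positivity)]
    calc √Y * Real.log Y ^ U ≤ √Y * √Y := mul_le_mul_of_nonneg_left a1 (Real.sqrt_nonneg _)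
      _ = Y := Real.mul_self_sqrt hY0.le
  rcases le_or_gt N0 y with h2 | h2
  · refine (h0 y h2 α).trans ?_
    have hs0 : 0 < √Y := Real.sqrt_pos.2 hY0
    have hly : Real.log Y / 2 ≤ Real.log y := by
      rw [← Real.log_sqrt hY0.le]
      exact Real.log_le_log hs0 h.le
    have hy0 : (0 : ℝ) ≤ y := Nat.cast_nonneg _
    calc (y : ℝ) / Real.log y ^ (U + 1) ≤ Y / (Real.log Y / 2) ^ (U + 1) := by
          apply div_le_div₀ hY0.le hy (by positivity)
          exact pow_le_pow_left₀ (by positivity) hly _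
      _ = (2 ^ (U + 1) / Real.log Y) * (Y / Real.log Y ^ U) := by
          rw [div_pow, pow_succ (Real.log Y)]
          field_simp
      _ ≤ 1 * (Y / Real.log Y ^ U) := by
          apply mul_le_mul_of_nonneg_right _ (by positivity)
          rw [div_le_one hL0]
          exact a3
      _ = _ := one_mul _
  · refine htriv.trans ?_
    rw [le_div_iff₀ (by positivity)]
    refine le_trans ?_ a2
    apply mul_le_mul_of_nonneg_right _ (by positivity)
    exact_mod_cast h2.le

/-- the coprime exponential sum -/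
lemma sup_cop (U : ℕ) (δ : ℝ) (hδ : 0 < δ) : ∃ X0 : ℕ, ∀ X : ℝ, X0 ≤ X → ∀ q : ℕ, 1 ≤ q → (q : ℝ) ≤ X ^ (1 - δ) →
    ∀ t : ℕ, (t : ℝ) ≤ X / q → ∀ β : ℝ,
      ‖∑ m ∈ (Icc 1 t).filter (fun m => m.Coprime q), ((muR m : ℝ) : ℂ) * ee ((m : ℝ) * β)‖ ≤
        (X / q) * (q.divisors.card : ℝ) ^ 2 / Real.log X ^ U := by
  obtain ⟨Y0, hd⟩ := dav (U + 1)
  have hev1 : ∀ᶠ X : ℝ in Filter.atTop, (Y0 : ℝ) ≤ X ^ (δ / 2) := by
    exact (tendsto_rpow_atTop (by positivity : 0 < δ / 2)).eventually_ge_atTop _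
  obtain ⟨m1, e1⟩ := ev_nat ((ev_pow_le U (δ / 4) (by positivity) 1).and
    (hev1.and ((ev_log_ge (max ((2 / δ) ^ (U + 1)) 1)).and (Filter.eventually_ge_atTop 1))))
  refine ⟨m1, fun X hX q hq hqX t ht β => ?_⟩
  obtain ⟨a1, a2, a3, a4⟩ := e1 X hX
  rw [one_mul] at a1
  have hX0 : 0 < X := by linarith
  have hL1 : 1 ≤ Real.log X := (le_max_right _ _).trans a3
  have hL0 : 0 < Real.log X := by linarith
  have a5 := (le_max_left _ _).trans a3
  have hq0 : (0 : ℝ) < q := by exact_mod_cast hq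
  set x : ℝ := X / q with hx
  have hx0 : 0 < x := by positivity
  have hxδ : X ^ δ ≤ x := by
    rw [hx, le_div_iff₀ hq0]
    calc X ^ δ * q ≤ X ^ δ * X ^ (1 - δ) := mul_le_mul_of_nonneg_left hqX (by positivity)
      _ = X := by rw [← Real.rpow_add hX0]; simp
  rw [cop_identity q (by omega) t (fun m => ee ((m : ℝ) * β))]
  refine (norm_sum_le _ _).trans ?_
  have hterm : ∀ d ∈ (Icc 1 t).filter (fun d => d.primeFactors ⊆ q.primeFactors),
      ‖∑ k ∈ Icc 1 (t / d), ((muR k : ℝ) : ℂ) * ee (((d * k : ℕ) : ℝ) * β)‖ ≤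
        (x / Real.log X ^ U) * (√(d : ℝ))⁻¹ := by
    intro d hd'
    rw [mem_filter, mem_Icc] at hd'
    have hd1 : (1 : ℝ) ≤ d := by exact_mod_cast hd'.1.1
    have hd0 : (0 : ℝ) < d := by linarith
    have hsd : 0 < √(d : ℝ) := Real.sqrt_pos.2 hd0
    have hsd1 : 1 ≤ √(d : ℝ) := by
      apply Real.le_sqrt_of_sq_le
      linarith
    have hee : ∀ k : ℕ, ee (((d * k : ℕ) : ℝ) * β) = ee ((k : ℝ) * ((d : ℝ) * β)) := by
      intro k; congr 1; push_cast; ring
    rw [sum_congr rfl fun k _ => by rw [hee k]]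
    have htd : ((t / d : ℕ) : ℝ) ≤ x / d := by
      refine (Nat.cast_div_le).trans ?_
      exact div_le_div_of_nonneg_right ht hd0.le
    have hinv : (1 : ℝ) / d = (√(d : ℝ))⁻¹ * (√(d : ℝ))⁻¹ := by
      rw [← mul_inv, Real.mul_self_sqrt hd0.le, one_div]
    rcases le_or_gt ((d : ℝ) * d) x with h | h
    · -- small d
      have hY : X ^ (δ / 2) ≤ x / d := by
        have h1 : √x ≤ x / d := by
          rw [le_div_iff₀ hd0]
          calc √x * d ≤ √x * √x := by
                apply mul_le_mul_of_nonneg_left _ (Real.sqrt_nonneg _)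
                apply Real.le_sqrt_of_sq_le
                rw [pow_two]; exact h
            _ = x := Real.mul_self_sqrt hx0.le
        refine le_trans ?_ h1
        apply Real.le_sqrt_of_sq_le
        rw [← Real.rpow_natCast, ← Real.rpow_mul hX0.le]
        convert hxδ using 2
        push_cast; ring
      have h2 := hd (x / d) (a2.trans hY) (t / d) htd ((d : ℝ) * β)
      refine h2.trans ?_
      have hXδ0 : 0 < X ^ (δ / 2) := by positivity
      have hlog : (δ / 2) * Real.log X ≤ Real.log (x / d) := by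
        rw [← Real.log_rpow hX0]
        exact Real.log_le_log hXδ0 hY
      calc x / d / Real.log (x / d) ^ (U + 1) ≤ x / d / ((δ / 2) * Real.log X) ^ (U + 1) := by
            apply div_le_div_of_nonneg_left (by positivity) (by positivity)
            exact pow_le_pow_left₀ (by positivity) hlog _
        _ = (x * (1 / d)) * (((2 / δ) ^ (U + 1) / Real.log X) * (1 / Real.log X ^ U)) := by
            rw [mul_pow, pow_succ (Real.log X), div_pow, div_pow]
            field_simp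
        _ ≤ (x * (√(d : ℝ))⁻¹) * (1 * (1 / Real.log X ^ U)) := by
            apply mul_le_mul
            · apply mul_le_mul_of_nonneg_left _ hx0.le
              rw [hinv]
              have : (√(d : ℝ))⁻¹ ≤ 1 := inv_le_one_of_one_le₀ hsd1
              calc (√(d : ℝ))⁻¹ * (√(d : ℝ))⁻¹ ≤ (√(d : ℝ))⁻¹ * 1 := mul_le_mul_of_nonneg_left this (by positivity)
                _ = _ := mul_one _
            · apply mul_le_mul_of_nonneg_right _ (by positivity)
              rw [div_le_one hL0]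
              exact a5
            · positivity
            · positivity
        _ = _ := by ring
    · have h1 : ‖∑ k ∈ Icc 1 (t / d), ((muR k : ℝ) : ℂ) * ee ((k : ℝ) * ((d : ℝ) * β))‖ ≤ x / d := by
        refine (norm_sum_le _ _).trans ?_
        calc ∑ n ∈ Icc 1 (t / d), ‖((muR n : ℝ) : ℂ) * ee ((n : ℝ) * ((d : ℝ) * β))‖ ≤ ∑ _n ∈ Icc 1 (t / d), (1 : ℝ) := by
              refine sum_le_sum fun n _ => ?_
              rw [norm_mul, norm_ee, mul_one, Complex.norm_real]
              exact muR_abs n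
          _ = ((t / d : ℕ) : ℝ) := by simp
          _ ≤ x / d := htd
      refine h1.trans ?_
      have h2 : (√(d : ℝ))⁻¹ ≤ 1 / Real.log X ^ U := by
        rw [inv_le_comm₀ hsd (by positivity), one_div, inv_inv]
        refine a1.trans ?_
        apply Real.le_sqrt_of_sq_le
        rw [← Real.rpow_natCast, ← Real.rpow_mul hX0.le]
        have h3 : X ^ (δ / 4 * ((2 : ℕ) : ℝ)) = X ^ (δ / 2) := by congr 1; push_cast; ring
        rw [h3]
        by_contra hc
        push Not at hc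
        have h4 : (d : ℝ) * d < X ^ (δ / 2) * X ^ (δ / 2) := by
          apply mul_lt_mul'' hc hc hd0.le hd0.le
        rw [← Real.rpow_add hX0] at h4
        have h5 : δ / 2 + δ / 2 = δ := by ring
        rw [h5] at h4
        linarith
      calc x / d = x * (1 / d) := by ring
        _ = x * ((√(d : ℝ))⁻¹ * (√(d : ℝ))⁻¹) := by rw [hinv]
        _ ≤ x * ((1 / Real.log X ^ U) * (√(d : ℝ))⁻¹) := by
            apply mul_le_mul_of_nonneg_left _ hx0.le
            apply mul_le_mul_of_nonneg_right h2 (by positivity)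
        _ = _ := by ring
  refine (sum_le_sum hterm).trans ?_
  rw [← mul_sum]
  have h := euler_le q t (by omega)
  calc x / Real.log X ^ U * ∑ d ∈ (Icc 1 t).filter (fun d => d.primeFactors ⊆ q.primeFactors), (√(d : ℝ))⁻¹
      ≤ x / Real.log X ^ U * (q.divisors.card : ℝ) ^ 2 := mul_le_mul_of_nonneg_left h (by positivity)
    _ = _ := by ring

/-- the sum over multiples of `q` -/
lemma sup_mult (U : ℕ) (δ : ℝ) (hδ : 0 < δ) : ∃ X0 : ℕ, ∀ X : ℕ, X0 ≤ X → ∀ q : ℕ, 1 ≤ q → (q : ℝ) ≤ (X : ℝ) ^ (1 - δ) →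
    ∀ y : ℕ, ∀ α : ℝ,
      ‖∑ m ∈ Icc 1 X, (((if m ≤ y ∧ q ∣ m then muR m else 0) : ℝ) : ℂ) * ee ((m : ℝ) * α)‖ ≤
        ((X : ℝ) / q) * (q.divisors.card : ℝ) ^ 2 / Real.log X ^ U := by
  obtain ⟨X0, h0⟩ := sup_cop U δ hδ
  refine ⟨max X0 1, fun X hX q hq hqX y α => ?_⟩
  have hX0 : (X0 : ℝ) ≤ X := by exact_mod_cast (le_max_left _ _).trans hX
  have hX1 : 1 ≤ X := (le_max_right _ _).trans hX
  have hq0 : (0 : ℝ) < q := by exact_mod_cast hq
  set t : ℕ := min X y / q with ht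
  have htx : (t : ℝ) ≤ X / q := by
    rw [ht]
    refine (Nat.cast_div_le).trans ?_
    apply div_le_div_of_nonneg_right _ hq0.le
    exact_mod_cast min_le_left _ _
  have hmain := h0 X hX0 q hq hqX t htx ((q : ℝ) * α)
  have hnn : 0 ≤ ((X : ℝ) / q) * (q.divisors.card : ℝ) ^ 2 / Real.log X ^ U := le_trans (norm_nonneg _) hmain
  have heq : ∑ m ∈ Icc 1 X, (((if m ≤ y ∧ q ∣ m then muR m else 0) : ℝ) : ℂ) * ee ((m : ℝ) * α) =
      ((muR q : ℝ) : ℂ) * ∑ m ∈ (Icc 1 t).filter (fun m => m.Coprime q), ((muR m : ℝ) : ℂ) * ee ((m : ℝ) * ((q : ℝ) * α)) := by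
    have e1 : ∑ m ∈ Icc 1 X, (((if m ≤ y ∧ q ∣ m then muR m else 0) : ℝ) : ℂ) * ee ((m : ℝ) * α) =
        ∑ m ∈ (Icc 1 X).filter (fun m => m ≤ y ∧ q ∣ m), ((muR m : ℝ) : ℂ) * ee ((m : ℝ) * α) := by
      rw [sum_filter]
      refine sum_congr rfl fun m _ => ?_
      split_ifs <;> simp
    have e2 : ∑ m ∈ (Icc 1 X).filter (fun m => m ≤ y ∧ q ∣ m), ((muR m : ℝ) : ℂ) * ee ((m : ℝ) * α) =
        ∑ k ∈ Icc 1 t, ((muR (q * k) : ℝ) : ℂ) * ee (((q * k : ℕ) : ℝ) * α) := by
      refine sum_nbij' (fun m => m / q) (fun k => q * k) ?_ ?_ ?_ ?_ ?_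
      · intro m hm
        simp only [mem_filter, mem_Icc] at hm
        obtain ⟨⟨h1, h2⟩, h3, h4⟩ := hm
        rw [mem_Icc, ht]
        exact ⟨Nat.div_pos (Nat.le_of_dvd (by omega) h4) (by omega), Nat.div_le_div_right (le_min h2 h3)⟩
      · intro k hk
        rw [mem_Icc, ht, Nat.le_div_iff_mul_le (by omega)] at hk
        simp only [mem_filter, mem_Icc]
        have h1 := hk.2.trans (min_le_left _ _)
        have h2 := hk.2.trans (min_le_right _ _)
        rw [mul_comm] at h1 h2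
        exact ⟨⟨Nat.mul_pos (by omega) (by omega), h1⟩, h2, Dvd.intro _ rfl⟩
      · intro m hm
        simp only [mem_filter, mem_Icc] at hm
        exact Nat.mul_div_cancel' hm.2.2
      · intro k hk
        exact Nat.mul_div_cancel_left _ (by omega)
      · intro m hm
        simp only [mem_filter, mem_Icc] at hm
        rw [Nat.mul_div_cancel' hm.2.2]
    rw [e1, e2, mul_sum, sum_filter]
    refine sum_congr rfl fun k hk => ?_
    have e3 : ee (((q * k : ℕ) : ℝ) * α) = ee ((k : ℝ) * ((q : ℝ) * α)) := by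
      congr 1; push_cast; ring
    rw [e3]
    split_ifs with hc
    · have : muR (q * k) = muR q * muR k := by
        unfold muR
        rw [ArithmeticFunction.isMultiplicative_moebius.map_mul_of_coprime hc.symm]
        push_cast
        ring
      rw [this]
      push_cast
      ring
    · have : muR (q * k) = 0 := by
        unfold muR
        have h1 : ¬ Squarefree (q * k) := by
          intro hsq
          apply hc
          exact (Nat.coprime_of_squarefree_mul hsq).symm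
        rw [ArithmeticFunction.moebius_eq_zero_of_not_squarefree h1]
        simp
      rw [this]
      simp
  rw [heq, norm_mul, Complex.norm_real]
  calc ‖muR q‖ * _ ≤ 1 * _ := mul_le_mul_of_nonneg_right (by rw [Real.norm_eq_abs]; exact muR_abs q) (norm_nonneg _)
    _ ≤ _ := by rw [one_mul]; exact hmain

end Pool.Agent.X25.DE
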