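import Mathlib
import Pool.Agent.X25.DE.Conv
import Pool.Agent.X25.DE.Sup
import Pool.Agent.TH935.LP.L1

/-! The average of the maximal diagonal sums. -/

set_option autoImplicit false

namespace Pool.Agent.X25.DE
open Finset ArithmeticFunction
open Pool.Agent.H807R2.Dav
open Pool.Agent.H373R2.T7 (muR muR_abs sup_mu)
open Pool.Agent.TH935.LD (tau_pow_div)
open Pool.Agent.TH935.DSB (harm)

/-- the diagonal sum over multiples of `q` up to `y` -/
noncomputable def T (q N y : ℕ) : ℝ :=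
  ∑ m ∈ (Icc 1 (N - 1)).filter (fun m => m ≤ y ∧ q ∣ m), muR m * vonMangoldt (N - m)

lemma T_eq (q N y : ℕ) : T q N y = ∑ m ∈ Icc 1 (N - 1), (if m ≤ y ∧ q ∣ m then muR m else 0) * vonMangoldt (N - m) := by
  unfold T
  rw [sum_filter]
  refine sum_congr rfl fun m _ => ?_
  split_ifs <;> simp

lemma Lam_le {n X : ℕ} (hn : n ≤ X) : |vonMangoldt n| ≤ Real.log X := by
  rw [abs_of_nonneg vonMangoldt_nonneg]
  rcases Nat.eq_zero_or_pos n with rfl | h
  · simp only [ArithmeticFunction.map_zero]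
    exact Real.log_natCast_nonneg _
  · exact vonMangoldt_le_log.trans (Real.log_le_log (by exact_mod_cast h) (by exact_mod_cast hn))

/-- a fixed cut -/
lemma avg_cut (U : ℕ) (δ : ℝ) (hδ : 0 < δ) : ∃ X0 : ℕ, ∀ X : ℕ, X0 ≤ X → ∀ q : ℕ, 1 ≤ q → (q : ℝ) ≤ (X : ℝ) ^ (1 - δ) →
    ∀ y : ℕ, ∑ N ∈ Icc 1 X, |T q N y| ≤ (X : ℝ) ^ 2 * ((q.divisors.card : ℝ) ^ 2 / q) / Real.log X ^ U := by
  obtain ⟨X0, h0⟩ := sup_mult (U + 1) δ hδ
  obtain ⟨X1, h1⟩ := ev_nat (ev_log_ge 1)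
  refine ⟨max X0 X1, fun X hX q hq hqX y => ?_⟩
  have hL : 1 ≤ Real.log X := h1 X (by exact_mod_cast (le_max_right _ _).trans hX)
  have hL0 : 0 < Real.log X := by linarith
  have hs := h0 X ((le_max_left _ _).trans hX) q hq hqX y
  have hF0 : 0 ≤ ((X : ℝ) / q) * (q.divisors.card : ℝ) ^ 2 / Real.log X ^ (U + 1) := by positivity
  have h := conv_bound1 X (fun m => if m ≤ y ∧ q ∣ m then muR m else 0) (fun n => vonMangoldt n)
    _ (Real.log X) hF0 hL0.le hs (fun n hn => Lam_le (mem_Icc.1 hn).2)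
  have e1 : ∑ N ∈ Icc 1 X, |T q N y| = ∑ N ∈ Icc 1 X, |∑ m ∈ Icc 1 (N - 1), (fun m => if m ≤ y ∧ q ∣ m then muR m else 0) m * (fun n => vonMangoldt n) (N - m)| := by
    refine sum_congr rfl fun N _ => ?_
    rw [T_eq]
  rw [e1]
  refine h.trans (le_of_eq ?_)
  have e2 : Real.log X ^ (U + 1) = Real.log X ^ U * Real.log X := pow_succ _ _
  rw [e2]
  field_simp

/-- the maximal diagonal sum -/
noncomputable def TM (q N : ℕ) : ℝ := (range (N + 1)).sup' ⟨0, by simp⟩ (fun y => |T q N y|)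

lemma T_le_TM (q N y : ℕ) : |T q N y| ≤ TM q N := by
  unfold TM
  rcases le_or_gt y N with h | h
  · exact le_sup' (fun y => |T q N y|) (mem_range.2 (by omega))
  · have : T q N y = T q N N := by
      unfold T
      congr 1
      apply filter_congr
      intro m hm
      rw [mem_Icc] at hm
      constructor
      · rintro ⟨_, h2⟩
        exact ⟨by omega, h2⟩
      · rintro ⟨_, h2⟩
        exact ⟨by omega, h2⟩
    rw [this]
    exact le_sup' (fun y => |T q N y|) (mem_range.2 (by omega))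

lemma TM_nonneg (q N : ℕ) : 0 ≤ TM q N := (abs_nonneg _).trans (T_le_TM q N 0)

lemma TM_le (q N h X : ℕ) (hh : 0 < h) (hN : N ≤ X) (hq : 0 < q) :
    TM q N ≤ ∑ j ∈ range (X / h + 1), |T q N (j * h)| + ((h : ℝ) / q + 1) * Real.log X := by
  unfold TM
  apply sup'_le
  intro y hy
  rw [mem_range] at hy
  set j := y / h with hj
  have hjr : j ∈ range (X / h + 1) := by
    rw [mem_range]
    have : y / h ≤ X / h := Nat.div_le_div_right (by omega)
    omega
  have h1 : |T q N (j * h)| ≤ ∑ j ∈ range (X / h + 1), |T q N (j * h)| :=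
    single_le_sum (f := fun j => |T q N (j * h)|) (fun _ _ => abs_nonneg _) hjr
  have hjy : j * h ≤ y := Nat.div_mul_le_self y h
  have hyj : y < j * h + h := by
    have := Nat.lt_div_mul_add (a := y) hh
    exact this
  have h2 : |T q N y - T q N (j * h)| ≤ ((h : ℝ) / q + 1) * Real.log X := by
    have e1 : T q N y - T q N (j * h) = ∑ m ∈ (Icc 1 (N - 1)).filter (fun m => (j * h < m ∧ m ≤ y) ∧ q ∣ m), muR m * vonMangoldt (N - m) := by
      unfold T
      rw [sub_eq_iff_eq_add, ← sum_union]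
      · apply sum_congr _ fun _ _ => rfl
        ext m
        simp only [mem_filter, mem_union, mem_Icc]
        constructor
        · rintro ⟨h1, h2, h3⟩
          rcases lt_or_ge (j * h) m with h4 | h4
          · left; exact ⟨h1, ⟨h4, h2⟩, h3⟩
          · right; exact ⟨h1, h4, h3⟩
        · rintro (⟨h1, ⟨h2, h3⟩, h4⟩ | ⟨h1, h2, h3⟩)
          · exact ⟨h1, h3, h4⟩
          · exact ⟨h1, h2.trans hjy, h3⟩
      · rw [disjoint_left]
        intro m hm hm'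
        simp only [mem_filter] at hm hm'
        omega
    rw [e1]
    refine (abs_sum_le_sum_abs _ _).trans ?_
    have e2 : ∀ m ∈ (Icc 1 (N - 1)).filter (fun m => (j * h < m ∧ m ≤ y) ∧ q ∣ m), |muR m * vonMangoldt (N - m)| ≤ Real.log X := by
      intro m _
      rw [abs_mul]
      calc |muR m| * |vonMangoldt (N - m)| ≤ 1 * |vonMangoldt (N - m)| :=
            mul_le_mul_of_nonneg_right (muR_abs m) (abs_nonneg _)
        _ ≤ Real.log X := by rw [one_mul]; exact Lam_le (by omega)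
    refine (sum_le_sum e2).trans ?_
    rw [sum_const, nsmul_eq_mul]
    apply mul_le_mul_of_nonneg_right _ (Real.log_natCast_nonneg _)
    have e3 : ((Icc 1 (N - 1)).filter (fun m => (j * h < m ∧ m ≤ y) ∧ q ∣ m)).card ≤ h / q + 1 := by
      have hsub : (Icc 1 (N - 1)).filter (fun m => (j * h < m ∧ m ≤ y) ∧ q ∣ m) ⊆
          (Ioc (j * h) (j * h + h)).filter (fun m => m ≡ 0 [MOD q]) := by
        intro m hm
        simp only [mem_filter, mem_Ioc] at hm ⊢
        exact ⟨⟨hm.2.1.1, by omega⟩, (Nat.modEq_zero_iff_dvd).2 hm.2.2⟩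
      refine (card_le_card hsub).trans ?_
      have hc := Nat.Ioc_filter_modEq_card (a := j * h) (b := j * h + h) hq 0
      have h5 : ((((Ioc (j * h) (j * h + h)).filter (fun m => m ≡ 0 [MOD q])).card : ℤ)) ≤ h / q + 1 := by
        rw [hc]
        apply max_le
        · have e4 : (((j * h + h : ℕ) : ℚ) - ((0 : ℕ) : ℚ)) / q = ((j * h : ℕ) : ℚ) / q + (h : ℚ) / q := by
            push_cast; ring
          have hqq : (0 : ℚ) < q := by exact_mod_cast hq
          have h6 : ⌊(((j * h + h : ℕ) : ℚ) - ((0 : ℕ) : ℚ)) / q⌋ ≤ ⌊(((j * h : ℕ) : ℚ) - ((0 : ℕ) : ℚ)) / q⌋ + (⌊(h : ℚ) / q⌋ + 1) := by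
            rw [e4]
            have h7 := Int.lt_floor_add_one (((j * h : ℕ) : ℚ) / q)
            have h8 := Int.lt_floor_add_one ((h : ℚ) / q)
            have h9 : ⌊((j * h : ℕ) : ℚ) / q + (h : ℚ) / q⌋ < ⌊((j * h : ℕ) : ℚ) / q⌋ + ⌊(h : ℚ) / q⌋ + 2 := by
              rw [Int.floor_lt]
              push_cast
              push_cast at h7 h8
              linarith
            have e5 : (((j * h : ℕ) : ℚ) - ((0 : ℕ) : ℚ)) / q = ((j * h : ℕ) : ℚ) / q := by push_cast; ring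
            rw [e5]
            omega
          have h10 : ⌊(h : ℚ) / q⌋ = (h : ℤ) / q := by
            have h11 := Rat.floor_intCast_div_natCast (h : ℤ) q
            rw [Int.cast_natCast] at h11
            exact h11
          rw [h10] at h6
          linarith
        · positivity
      exact_mod_cast h5
    have e6 : ((h / q + 1 : ℕ) : ℝ) ≤ (h : ℝ) / q + 1 := by
      push_cast
      linarith [Nat.cast_div_le (α := ℝ) (m := h) (n := q)]
    exact (by exact_mod_cast e3 : ((((Icc 1 (N - 1)).filter (fun m => (j * h < m ∧ m ≤ y) ∧ q ∣ m)).card : ℝ)) ≤ ((h / q + 1 : ℕ) : ℝ)).trans e6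
  have h3 : T q N y = T q N (j * h) + (T q N y - T q N (j * h)) := by ring
  rw [h3]
  refine (abs_add_le _ _).trans ?_
  linarith

/-- the average bound for the maximal sums -/
theorem avg_max (A : ℕ) (δ : ℝ) (hδ : 0 < δ) (hδ1 : δ < 1) : ∃ X0 : ℕ, ∀ X : ℕ, X0 ≤ X →
    ∑ N ∈ Icc 1 X, ∑ q ∈ Icc 1 ⌊(X : ℝ) ^ (1 - δ)⌋₊, TM q N ≤ (X : ℝ) ^ 2 / Real.log X ^ A := by
  obtain ⟨X0, h0⟩ := avg_cut (2 * A + 9) δ hδ
  obtain ⟨X1, h1⟩ := ev_nat ((ev_log_ge 100).and ((ev_pow_le (A + 3) 1 (by norm_num) 1).and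
    ((ev_pow_le (A + 2) δ hδ 1).and (Filter.eventually_ge_atTop 1))))
  refine ⟨max X0 X1, fun X hX => ?_⟩
  obtain ⟨hL, a1, a2, a3⟩ := h1 X (by exact_mod_cast (le_max_right _ _).trans hX)
  have hX0 := (le_max_left _ _).trans hX
  rw [one_mul, Real.rpow_one] at a1
  rw [one_mul] at a2
  set L := Real.log X with hLd
  have hL1 : 1 ≤ L := by linarith
  have hL0 : 0 < L := by linarith
  have hXp : (0 : ℝ) < X := by linarith
  set Q := ⌊(X : ℝ) ^ (1 - δ)⌋₊ with hQ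
  have hQle : (Q : ℝ) ≤ (X : ℝ) ^ (1 - δ) := Nat.floor_le (by positivity)
  have hQX : Q ≤ X := by
    have : (Q : ℝ) ≤ X := by
      refine hQle.trans ?_
      calc (X : ℝ) ^ (1 - δ) ≤ (X : ℝ) ^ (1 : ℝ) := Real.rpow_le_rpow_of_exponent_le a3 (by linarith)
        _ = X := Real.rpow_one _
    exact_mod_cast this
  set h : ℕ := ⌊(X : ℝ) / L ^ (A + 3)⌋₊ with hh
  have hge1 : 1 ≤ (X : ℝ) / L ^ (A + 3) := by
    rw [le_div_iff₀ (by positivity), one_mul]; exact a1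
  have hpos : 0 < h := by
    rw [hh, Nat.floor_pos]; exact hge1
  have hle : (h : ℝ) ≤ (X : ℝ) / L ^ (A + 3) := Nat.floor_le (by positivity)
  have hgt : (X : ℝ) / L ^ (A + 3) < h + 1 := Nat.lt_floor_add_one _
  have hhr : (1 : ℝ) ≤ h := by exact_mod_cast hpos
  have hJ : ((X / h + 1 : ℕ) : ℝ) ≤ 3 * L ^ (A + 3) := by
    have h2 : ((X / h : ℕ) : ℝ) ≤ X / h := Nat.cast_div_le
    have h3 : (X : ℝ) / h ≤ 2 * L ^ (A + 3) := by
      rw [div_le_iff₀ (by linarith)]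
      have h4 : (X : ℝ) / L ^ (A + 3) < 2 * h := by linarith
      rw [div_lt_iff₀ (by positivity)] at h4
      linarith
    have h5 : (1 : ℝ) ≤ L ^ (A + 3) := one_le_pow₀ hL1
    push_cast
    linarith
  have hstep : ∀ N ∈ Icc 1 X, ∑ q ∈ Icc 1 Q, TM q N ≤
      ∑ q ∈ Icc 1 Q, (∑ j ∈ range (X / h + 1), |T q N (j * h)| + ((h : ℝ) / q + 1) * L) := by
    intro N hN
    rw [mem_Icc] at hN
    refine sum_le_sum fun q hq => ?_
    rw [mem_Icc] at hq
    exact TM_le q N h X hpos hN.2 (by omega)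
  refine (sum_le_sum hstep).trans ?_
  rw [sum_comm]
  have hq1 : ∀ q ∈ Icc 1 Q, ∑ N ∈ Icc 1 X, (∑ j ∈ range (X / h + 1), |T q N (j * h)| + ((h : ℝ) / q + 1) * L) ≤
      3 * L ^ (A + 3) * ((X : ℝ) ^ 2 * ((q.divisors.card : ℝ) ^ 2 / q) / L ^ (2 * A + 9)) +
        X * (((h : ℝ) / q + 1) * L) := by
    intro q hq
    rw [mem_Icc] at hq
    rw [sum_add_distrib]
    apply add_le_add
    · rw [sum_comm]
      have hqX : (q : ℝ) ≤ (X : ℝ) ^ (1 - δ) := le_trans (by exact_mod_cast hq.2) hQle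
      calc ∑ j ∈ range (X / h + 1), ∑ N ∈ Icc 1 X, |T q N (j * h)|
          ≤ ∑ _j ∈ range (X / h + 1), ((X : ℝ) ^ 2 * ((q.divisors.card : ℝ) ^ 2 / q) / L ^ (2 * A + 9)) :=
            sum_le_sum fun j _ => h0 X hX0 q hq.1 hqX (j * h)
        _ = ((X / h + 1 : ℕ) : ℝ) * ((X : ℝ) ^ 2 * ((q.divisors.card : ℝ) ^ 2 / q) / L ^ (2 * A + 9)) := by
            rw [sum_const, card_range, nsmul_eq_mul]
        _ ≤ _ := mul_le_mul_of_nonneg_right hJ (by positivity)
    · rw [sum_const, Nat.card_Icc, nsmul_eq_mul]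
      simp
  refine (sum_le_sum hq1).trans ?_
  rw [sum_add_distrib]
  have s1 : ∑ q ∈ Icc 1 Q, 3 * L ^ (A + 3) * ((X : ℝ) ^ 2 * ((q.divisors.card : ℝ) ^ 2 / q) / L ^ (2 * A + 9)) ≤
      (X : ℝ) ^ 2 / L ^ A * (48 / L) := by
    have e1 : ∑ q ∈ Icc 1 Q, 3 * L ^ (A + 3) * ((X : ℝ) ^ 2 * ((q.divisors.card : ℝ) ^ 2 / q) / L ^ (2 * A + 9)) =
        3 * (X : ℝ) ^ 2 / L ^ (A + 6) * ∑ q ∈ Icc 1 Q, (q.divisors.card : ℝ) ^ 2 / q := by
      rw [mul_sum]
      refine sum_congr rfl fun q _ => ?_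
      have : L ^ (2 * A + 9) = L ^ (A + 3) * L ^ (A + 6) := by rw [← pow_add]; congr 1; ring
      rw [this]
      field_simp
    rw [e1]
    have e2 : ∑ q ∈ Icc 1 Q, (q.divisors.card : ℝ) ^ 2 / q ≤ (1 + L) ^ 4 := by
      calc ∑ q ∈ Icc 1 Q, (q.divisors.card : ℝ) ^ 2 / q ≤ ∑ q ∈ Icc 1 X, (q.divisors.card : ℝ) ^ 2 / q :=
            sum_le_sum_of_subset_of_nonneg (Icc_subset_Icc_right hQX) (fun _ _ _ => by positivity)
        _ ≤ (1 + Real.log X) ^ (2 ^ 2) := tau_pow_div 2 X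
        _ = _ := by norm_num [hLd]
    calc 3 * (X : ℝ) ^ 2 / L ^ (A + 6) * ∑ q ∈ Icc 1 Q, (q.divisors.card : ℝ) ^ 2 / q
        ≤ 3 * (X : ℝ) ^ 2 / L ^ (A + 6) * (2 * L) ^ 4 := by
          apply mul_le_mul_of_nonneg_left _ (by positivity)
          refine e2.trans (pow_le_pow_left₀ (by linarith) (by linarith) 4)
      _ = (X : ℝ) ^ 2 / L ^ A * (48 / L ^ 2) := by
          rw [pow_add]; field_simp; ring
      _ ≤ _ := by
          apply mul_le_mul_of_nonneg_left _ (by positivity)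
          apply div_le_div_of_nonneg_left (by norm_num) hL0
          nlinarith
  have s2 : ∑ q ∈ Icc 1 Q, (X : ℝ) * (((h : ℝ) / q + 1) * L) ≤ (X : ℝ) ^ 2 / L ^ A * (3 / L) := by
    have e1 : ∑ q ∈ Icc 1 Q, (X : ℝ) * (((h : ℝ) / q + 1) * L) = X * h * L * (∑ q ∈ Icc 1 Q, 1 / (q : ℝ)) + X * L * Q := by
      rw [mul_sum]
      have : (X : ℝ) * L * Q = ∑ q ∈ Icc 1 Q, (X : ℝ) * L := by
        rw [sum_const, Nat.card_Icc, nsmul_eq_mul]; simp; ring
      rw [this, ← sum_add_distrib]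
      refine sum_congr rfl fun q _ => ?_
      ring
    rw [e1]
    have e2 : ∑ q ∈ Icc 1 Q, 1 / (q : ℝ) ≤ 2 * L := by
      calc ∑ q ∈ Icc 1 Q, 1 / (q : ℝ) ≤ ∑ q ∈ Icc 1 X, 1 / (q : ℝ) :=
            sum_le_sum_of_subset_of_nonneg (Icc_subset_Icc_right hQX) (fun _ _ _ => by positivity)
        _ ≤ 1 + Real.log X := harm X
        _ ≤ 2 * L := by linarith
    have e3 : (X : ℝ) * h * L * (∑ q ∈ Icc 1 Q, 1 / (q : ℝ)) ≤ (X : ℝ) ^ 2 / L ^ A * (2 / L) := by
      calc (X : ℝ) * h * L * (∑ q ∈ Icc 1 Q, 1 / (q : ℝ)) ≤ (X : ℝ) * (X / L ^ (A + 3)) * L * (2 * L) := by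
            apply mul_le_mul _ e2 (by positivity) (by positivity)
            apply mul_le_mul_of_nonneg_right _ hL0.le
            exact mul_le_mul_of_nonneg_left hle hXp.le
        _ = _ := by rw [pow_add]; field_simp
    have e4 : (X : ℝ) * L * Q ≤ (X : ℝ) ^ 2 / L ^ A * (1 / L) := by
      have e5 : (Q : ℝ) ≤ X / L ^ (A + 2) := by
        refine hQle.trans ?_
        rw [le_div_iff₀ (by positivity)]
        calc (X : ℝ) ^ (1 - δ) * L ^ (A + 2) ≤ (X : ℝ) ^ (1 - δ) * (X : ℝ) ^ δ :=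
              mul_le_mul_of_nonneg_left a2 (by positivity)
          _ = X := by rw [← Real.rpow_add hXp]; simp
      calc (X : ℝ) * L * Q ≤ (X : ℝ) * L * (X / L ^ (A + 2)) := mul_le_mul_of_nonneg_left e5 (by positivity)
        _ = _ := by rw [pow_add]; field_simp
    have e6 : (X : ℝ) ^ 2 / L ^ A * (3 / L) = (X : ℝ) ^ 2 / L ^ A * (2 / L) + (X : ℝ) ^ 2 / L ^ A * (1 / L) := by ring
    rw [e6]
    exact add_le_add e3 e4
  have s3 : (X : ℝ) ^ 2 / L ^ A * (48 / L) + (X : ℝ) ^ 2 / L ^ A * (3 / L) ≤ (X : ℝ) ^ 2 / L ^ A := by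
    have : (X : ℝ) ^ 2 / L ^ A * (48 / L) + (X : ℝ) ^ 2 / L ^ A * (3 / L) = (X : ℝ) ^ 2 / L ^ A * (51 / L) := by ring
    rw [this]
    have h51 : 51 / L ≤ 1 := by rw [div_le_one hL0]; linarith
    calc (X : ℝ) ^ 2 / L ^ A * (51 / L) ≤ (X : ℝ) ^ 2 / L ^ A * 1 := mul_le_mul_of_nonneg_left h51 (by positivity)
      _ = _ := mul_one _
  linarith

end Pool.Agent.X25.DE
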